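import Mathlib
import Pool.Agent.U41.PH.Stm0

set_option autoImplicit false

/-!
Project PH, package SMd: the primes of middle size.
-/

namespace Pool.Agent.U41.PH

open MvPolynomial

theorem smd_one (h1 : S_C1) (h2 : S_C2) (k : ℕ) (h g : MvPolynomial (Fin k) ℤ)
    (W : MvPolynomial (Fin (k + 1)) ℤ) (i : ℕ) (hg : g = (finSuccEquiv ℤ k W).coeff i)
    (M : ℕ) (a : Fin (k + 1) → ℤ) (H p : ℕ) (hp : p.Prime) (hM : ¬ p ∣ M)
    (hm : ∃ m, ¬ (p : ℤ) ∣ coeff m h) :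
    (cnt (k + 1) H (fun x => (p : ℤ) ∣ eval (pt M a x) (rename Fin.succ h) ∧
      ¬ (p : ℤ) ∣ eval (pt M a x) (rename Fin.succ g) ∧ (p : ℤ) ∣ eval (pt M a x) W) : ℝ) ≤
      (h.totalDegree * (2 * (H : ℝ) + 1) ^ (k - 1) * ((2 * (H : ℝ) + 1) / p + 1)) *
      ((finSuccEquiv ℤ k W).natDegree * ((2 * (H : ℝ) + 1) / p + 1)) := by
  classical
  set a' : Fin k → ℤ := Fin.tail a with ha'
  set F : (Fin k → ℤ) → Polynomial ℤ :=
    fun x' => Polynomial.map (eval (pt M a' x')) (finSuccEquiv ℤ k W) with hF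
  set S : Finset (Fin k → ℤ) := (box k H).filter (fun x' => (p : ℤ) ∣ eval (pt M a' x') h) with hS
  set T : (Fin k → ℤ) → Finset ℤ := fun x' =>
    if (p : ℤ) ∣ eval (pt M a' x') g then ∅ else
      (Finset.Icc (-(H : ℤ)) H).filter fun t => (p : ℤ) ∣ (F x').eval (a 0 + M * t) with hT
  have hrn : ∀ (x : Fin (k + 1) → ℤ) (q : MvPolynomial (Fin k) ℤ),
      eval (pt M a x) (rename Fin.succ q) = eval (pt M a' (Fin.tail x)) q := by
    intro x q
    rw [eval_rename]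
    rfl
  have hW : ∀ (x : Fin (k + 1) → ℤ), eval (pt M a x) W =
      (F (Fin.tail x)).eval (a 0 + M * x 0) := by
    intro x
    rw [hF]
    simp only
    rw [← eval_eq_eval_mv_eval']
    congr 2
    exact (Fin.cons_self_tail (pt M a x)).symm
  have hcard : cnt (k + 1) H (fun x => (p : ℤ) ∣ eval (pt M a x) (rename Fin.succ h) ∧
      ¬ (p : ℤ) ∣ eval (pt M a x) (rename Fin.succ g) ∧ (p : ℤ) ∣ eval (pt M a x) W) ≤
      (S.sigma T).card := by
    unfold cnt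
    refine Finset.card_le_card_of_injOn (fun x => (⟨Fin.tail x, x 0⟩ : Σ _ : (Fin k → ℤ), ℤ)) ?_ ?_
    · intro x hx
      simp only [Finset.coe_filter, Set.mem_setOf_eq] at hx
      obtain ⟨hb, q1, q2, q3⟩ := hx
      have hb' : ∀ j, x j ∈ Finset.Icc (-(H : ℤ)) H := Fintype.mem_piFinset.1 hb
      rw [hrn] at q1 q2
      rw [hW] at q3
      refine Finset.mem_coe.2 (Finset.mem_sigma.2 ⟨?_, ?_⟩)
      · exact Finset.mem_filter.2 ⟨Fintype.mem_piFinset.2 fun j => hb' (Fin.succ j), q1⟩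
      · show x 0 ∈ T (Fin.tail x)
        rw [hT]
        simp only
        rw [if_neg q2]
        exact Finset.mem_filter.2 ⟨hb' 0, q3⟩
    · intro x _ y _ hxy
      simp only [Sigma.mk.injEq, heq_eq_eq] at hxy
      rw [← Fin.cons_self_tail x, ← Fin.cons_self_tail y, hxy.1, hxy.2]
  have hTc : ∀ x' ∈ S, ((T x').card : ℝ) ≤
      (finSuccEquiv ℤ k W).natDegree * ((2 * (H : ℝ) + 1) / p + 1) := by
    intro x' _
    rw [hT]
    simp only
    split_ifs with hd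
    · simp only [Finset.card_empty, Nat.cast_zero]
      positivity
    · have hco : (F x').coeff i = eval (pt M a' x') g := by
        rw [hF]
        simp only
        rw [Polynomial.coeff_map, hg]
      refine (h1 (F x') p M (a 0) H hp hM ⟨i, by rw [hco]; exact hd⟩).trans ?_
      have hdeg : ((F x').natDegree : ℝ) ≤ (finSuccEquiv ℤ k W).natDegree := by
        exact_mod_cast Polynomial.natDegree_map_le
      gcongr
  have hSc : (S.card : ℝ) ≤
      h.totalDegree * (2 * (H : ℝ) + 1) ^ (k - 1) * ((2 * (H : ℝ) + 1) / p + 1) := by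
    have := h2 k h p M a' H hp hM hm
    unfold cnt at this
    convert this using 3
    ext x
    simp only [hS, Finset.mem_filter]
  calc (cnt (k + 1) H (fun x => (p : ℤ) ∣ eval (pt M a x) (rename Fin.succ h) ∧
      ¬ (p : ℤ) ∣ eval (pt M a x) (rename Fin.succ g) ∧ (p : ℤ) ∣ eval (pt M a x) W) : ℝ)
      ≤ ((S.sigma T).card : ℝ) := by exact_mod_cast hcard
    _ = ∑ x' ∈ S, ((T x').card : ℝ) := by rw [Finset.card_sigma]; push_cast; rfl
    _ ≤ ∑ _x' ∈ S, (finSuccEquiv ℤ k W).natDegree * ((2 * (H : ℝ) + 1) / p + 1) :=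
        Finset.sum_le_sum hTc
    _ = S.card * ((finSuccEquiv ℤ k W).natDegree * ((2 * (H : ℝ) + 1) / p + 1)) := by
        rw [Finset.sum_const, nsmul_eq_mul]
    _ ≤ _ := by gcongr

theorem smd_sum (Y n : ℕ) (hY : 0 < Y) :
    ∑ m ∈ Finset.Ioc Y n, ((m : ℝ) ^ 2)⁻¹ ≤ (Y : ℝ)⁻¹ := by
  rcases le_or_gt Y n with h | h
  · have h1 := sum_Ioc_inv_sq_le_sub (α := ℝ) hY.ne' h
    have h2 : (0 : ℝ) ≤ (n : ℝ)⁻¹ := by positivity
    linarith
  · rw [Finset.Ioc_eq_empty (by omega)]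
    simp

theorem SMd_ok (h1 : S_C1) (h2 : S_C2) : S_SMd := by
  classical
  intro k h g W i hg hirr
  obtain ⟨m, hm⟩ : ∃ m, coeff m h ≠ 0 := by
    by_contra hcon
    push Not at hcon
    exact hirr.ne_zero (MvPolynomial.ext _ _ fun m => by rw [hcon m, coeff_zero])
  refine ⟨4 * h.totalDegree * (finSuccEquiv ℤ k W).natDegree, (coeff m h).natAbs, by positivity, ?_⟩
  intro Y hY hY0 M a hSm H
  set L : ℝ := 2 * (H : ℝ) + 1 with hL
  have hL1 : 1 ≤ L := by rw [hL]; have := (Nat.cast_nonneg H : (0 : ℝ) ≤ H); linarith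
  set c : ℝ := 4 * h.totalDegree * (finSuccEquiv ℤ k W).natDegree with hc
  have hc0 : 0 ≤ c := by positivity
  set Pr : Finset ℕ := (Finset.Ioc Y (2 * H + 1)).filter Nat.Prime with hPr
  have hstep : ∀ p ∈ Pr, (cnt (k + 1) H (fun x => (p : ℤ) ∣ eval (pt M a x) (rename Fin.succ h) ∧
      ¬ (p : ℤ) ∣ eval (pt M a x) (rename Fin.succ g) ∧ (p : ℤ) ∣ eval (pt M a x) W) : ℝ) ≤
      c * L ^ (k + 1) * ((p : ℝ) ^ 2)⁻¹ := by
    intro p hp
    rw [hPr, Finset.mem_filter, Finset.mem_Ioc] at hp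
    obtain ⟨⟨p1, p2⟩, pp⟩ := hp
    have hM : ¬ p ∣ M := fun hd => absurd (hSm.2 p pp hd) (by omega)
    have hnd : ¬ (p : ℤ) ∣ coeff m h := by
      intro hd
      have h3 := Int.natAbs_dvd_natAbs.2 hd
      rw [Int.natAbs_natCast] at h3
      have h4 := Nat.le_of_dvd (Int.natAbs_pos.2 hm) h3
      omega
    refine (smd_one h1 h2 k h g W i hg M a H p pp hM ⟨m, hnd⟩).trans ?_
    have hp0 : (0 : ℝ) < p := by exact_mod_cast pp.pos
    have hpL : (p : ℝ) ≤ L := by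
      rw [hL]
      exact_mod_cast p2
    have h5 : L / p + 1 ≤ 2 * (L / p) := by
      have : 1 ≤ L / p := by rwa [one_le_div hp0]
      linarith
    rcases Nat.eq_zero_or_pos k with hk | hk
    · have h6 : h.totalDegree = 0 := by
        subst hk
        rw [eq_C_of_isEmpty h, totalDegree_C]
      rw [h6]
      simp only [Nat.cast_zero, zero_mul]
      positivity
    · calc (h.totalDegree * L ^ (k - 1) * (L / p + 1)) *
          ((finSuccEquiv ℤ k W).natDegree * (L / p + 1))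
          ≤ (h.totalDegree * L ^ (k - 1) * (2 * (L / p))) *
            ((finSuccEquiv ℤ k W).natDegree * (2 * (L / p))) := by gcongr
        _ = c * (L ^ (k - 1) * L ^ 2) * ((p : ℝ) ^ 2)⁻¹ := by
            rw [hc]
            field_simp
            ring
        _ = _ := by
            rw [← pow_add, show k - 1 + 2 = k + 1 by omega]
  have hun : cnt (k + 1) H (fun x => ∃ p : ℕ, p.Prime ∧ Y < p ∧ p ≤ 2 * H + 1 ∧
      (p : ℤ) ∣ eval (pt M a x) (rename Fin.succ h) ∧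
      ¬ (p : ℤ) ∣ eval (pt M a x) (rename Fin.succ g) ∧ (p : ℤ) ∣ eval (pt M a x) W) ≤
      ∑ p ∈ Pr, cnt (k + 1) H (fun x => (p : ℤ) ∣ eval (pt M a x) (rename Fin.succ h) ∧
      ¬ (p : ℤ) ∣ eval (pt M a x) (rename Fin.succ g) ∧ (p : ℤ) ∣ eval (pt M a x) W) := by
    unfold cnt
    refine (Finset.card_le_card ?_).trans Finset.card_biUnion_le
    intro x hx
    rw [Finset.mem_filter] at hx
    obtain ⟨hb, p, pp, p1, p2, hq⟩ := hx
    rw [Finset.mem_biUnion]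
    refine ⟨p, ?_, ?_⟩
    · rw [hPr, Finset.mem_filter, Finset.mem_Ioc]
      exact ⟨⟨p1, p2⟩, pp⟩
    · simp only [Finset.mem_filter]
      exact ⟨hb, hq⟩
  calc (cnt (k + 1) H (fun x => ∃ p : ℕ, p.Prime ∧ Y < p ∧ p ≤ 2 * H + 1 ∧
      (p : ℤ) ∣ eval (pt M a x) (rename Fin.succ h) ∧
      ¬ (p : ℤ) ∣ eval (pt M a x) (rename Fin.succ g) ∧ (p : ℤ) ∣ eval (pt M a x) W) : ℝ)
      ≤ ∑ p ∈ Pr, (cnt (k + 1) H (fun x => (p : ℤ) ∣ eval (pt M a x) (rename Fin.succ h) ∧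
      ¬ (p : ℤ) ∣ eval (pt M a x) (rename Fin.succ g) ∧ (p : ℤ) ∣ eval (pt M a x) W) : ℝ) := by
        exact_mod_cast hun
    _ ≤ ∑ p ∈ Pr, c * L ^ (k + 1) * ((p : ℝ) ^ 2)⁻¹ := Finset.sum_le_sum hstep
    _ ≤ ∑ p ∈ Finset.Ioc Y (2 * H + 1), c * L ^ (k + 1) * ((p : ℝ) ^ 2)⁻¹ := by
        refine Finset.sum_le_sum_of_subset_of_nonneg (Finset.filter_subset _ _) fun p _ _ => ?_
        positivity
    _ = c * L ^ (k + 1) * ∑ p ∈ Finset.Ioc Y (2 * H + 1), ((p : ℝ) ^ 2)⁻¹ := by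
        rw [Finset.mul_sum]
    _ ≤ c * L ^ (k + 1) * (Y : ℝ)⁻¹ := by
        gcongr
        exact smd_sum Y _ hY0
    _ = c / Y * L ^ (k + 1) := by ring

end Pool.Agent.U41.PH
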